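import Pool.Agent.Helper2.MAH.Lens

/-!
# Mahler's inequality: from cones to bodies

The cone form of Mahler's inequality implies the inequality for all convex bodies in all positions.
-/

set_option autoImplicit false

noncomputable section

namespace Pool.Agent.Helper26.MAH

open Matrix MeasureTheory Filter Topology Set
open scoped Pointwise ENNReal
open W679AM H712MA Helper82.Mah
open Pool.Agent.Helper2.MAH (Cone)

/-- the dual cone -/
def dualC {d : ℕ} (C : Set (Fin d → ℝ)) : Set (Fin d → ℝ) := {y | ∀ x ∈ C, 0 ≤ x ⬝ᵥ y}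

/-- Mahler's inequality, cone form -/
def S_CONE : Prop := ∀ (d : ℕ) (C : Set (Fin d → ℝ)) (e z : Fin d → ℝ), Cone C →
  (∀ x ∈ C, x ≠ 0 → 0 < x ⬝ᵥ e) → z ∈ interior C → z ⬝ᵥ e = d →
  1 ≤ (∫⁻ x in C, ENNReal.ofReal (Real.exp (-(x ⬝ᵥ e)))) *
      ∫⁻ y in dualC C, ENNReal.ofReal (Real.exp (-(z ⬝ᵥ y)))

variable {n : ℕ} {K : Set (Fin n → ℝ)}

/-- splitting off the first coordinate -/
lemma lintegral_split (F : (Fin (n + 1) → ℝ) → ℝ≥0∞) (hF : Measurable F) :
    ∫⁻ v, F v = ∫⁻ h : ℝ, ∫⁻ x : Fin n → ℝ, F (Fin.cons h x) := by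
  have h1 := (volume_preserving_piFinSuccAbove (fun _ : Fin (n + 1) => ℝ) 0).symm
  have h2 := h1.lintegral_comp hF
  rw [← h2, Measure.volume_eq_prod, lintegral_prod]
  · refine lintegral_congr fun h => lintegral_congr fun x => ?_
    congr 1
    exact Fin.insertNth_zero' h x
  · exact (hF.comp (MeasurableEquiv.measurable _)).aemeasurable

/-- the cone over `K` -/
def CK (K : Set (Fin n → ℝ)) : Set (Fin (n + 1) → ℝ) := {v | gauge K (Fin.tail v) ≤ v 0}

/-- the height -/
def ee (n : ℕ) : Fin (n + 1) → ℝ := Pi.single 0 1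

lemma dot_ee (v : Fin (n + 1) → ℝ) : v ⬝ᵥ ee n = v 0 := by
  unfold ee
  rw [dotProduct_single_one]

lemma ee_dot (v : Fin (n + 1) → ℝ) : ee n ⬝ᵥ v = v 0 := by
  rw [dotProduct_comm, dot_ee]

lemma tail_cont : Continuous (fun v : Fin (n + 1) → ℝ => Fin.tail v) := by
  unfold Fin.tail
  fun_prop

lemma nhds_zero (h : OBody K) : K ∈ 𝓝 (0 : Fin n → ℝ) := mem_interior_iff_mem_nhds.1 h.zero

lemma gauge_cont (h : OBody K) : Continuous (gauge K) :=
  continuous_gauge h.conv (nhds_zero h)

lemma gauge_le_one (h : OBody K) {x : Fin n → ℝ} (hx : gauge K x ≤ 1) : x ∈ K := by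
  have := mem_closure_of_gauge_le_one h.conv (interior_subset h.zero)
    (absorbent_nhds_zero (nhds_zero h)) hx
  rwa [h.comp.isClosed.closure_eq] at this

lemma cone_CK (h : OBody K) : Cone (CK K) where
  closed := isClosed_le ((gauge_cont h).comp tail_cont) (continuous_apply 0)
  zero := by
    show gauge K (0 : Fin n → ℝ) ≤ 0
    rw [gauge_zero]
  add := by
    intro x hx y hy
    show gauge K (Fin.tail x + Fin.tail y) ≤ x 0 + y 0
    exact (gauge_add_le h.conv (absorbent_nhds_zero (nhds_zero h)) _ _).trans (add_le_add hx hy)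
  smul := by
    intro c hc x hx
    show gauge K (c • Fin.tail x) ≤ c * x 0
    rw [gauge_smul_of_nonneg hc, smul_eq_mul]
    exact mul_le_mul_of_nonneg_left hx hc
  int := by
    refine ⟨ee n, ?_⟩
    have ho : IsOpen {v : Fin (n + 1) → ℝ | gauge K (Fin.tail v) < v 0} :=
      isOpen_lt ((gauge_cont h).comp tail_cont) (continuous_apply 0)
    have hsub : {v : Fin (n + 1) → ℝ | gauge K (Fin.tail v) < v 0} ⊆ CK K := by
      intro v hv
      exact (show gauge K (Fin.tail v) < v 0 from hv).le
    refine interior_maximal hsub ho ?_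
    have : Fin.tail (ee n) = 0 := by
      ext i
      simp [Fin.tail, ee]
    show gauge K (Fin.tail (ee n)) < ee n 0
    rw [this, gauge_zero]
    simp [ee]

lemma ee_pos (h : OBody K) : ∀ x ∈ CK K, x ≠ 0 → 0 < x ⬝ᵥ ee n := by
  intro x hx hx0
  rw [dot_ee]
  have h1 : gauge K (Fin.tail x) ≤ x 0 := hx
  rcases (gauge_nonneg (s := K) (Fin.tail x)).lt_or_eq with h2 | h2
  · linarith
  · rw [← h2] at h1
    refine lt_of_le_of_ne h1 fun h3 => hx0 ?_
    have h4 : Fin.tail x = 0 := by
      by_contra h5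
      exact absurd h2 (gauge_pos (absorbent_nhds_zero (nhds_zero h))
        (NormedSpace.isVonNBounded_of_isBounded ℝ h.comp.isBounded) |>.2 h5).ne
    ext i
    refine Fin.cases ?_ (fun j => ?_) i
    · exact h3.symm
    · exact congrFun h4 j

lemma zz_int (h : OBody K) : ((n : ℝ) + 1) • ee n ∈ interior (CK K) := by
  have ho : IsOpen {v : Fin (n + 1) → ℝ | gauge K (Fin.tail v) < v 0} :=
    isOpen_lt ((gauge_cont h).comp tail_cont) (continuous_apply 0)
  have hsub : {v : Fin (n + 1) → ℝ | gauge K (Fin.tail v) < v 0} ⊆ CK K := by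
    intro v hv
    exact (show gauge K (Fin.tail v) < v 0 from hv).le
  refine interior_maximal hsub ho ?_
  have : Fin.tail (((n : ℝ) + 1) • ee n) = 0 := by
    ext i
    simp [Fin.tail, ee]
  show gauge K (Fin.tail (((n : ℝ) + 1) • ee n)) < (((n : ℝ) + 1) • ee n) 0
  rw [this, gauge_zero]
  simp [ee]
  positivity

/-- the exponential integral of the cone over `K` -/
lemma phi_le (h : OBody K) : ∫⁻ x in CK K, ENNReal.ofReal (Real.exp (-(x ⬝ᵥ ee n))) ≤
    ENNReal.ofReal (n.factorial : ℝ) * volume K := by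
  have hm : MeasurableSet (CK K) := (cone_CK h).closed.measurableSet
  rw [← lintegral_indicator hm, lintegral_split]
  swap
  · refine Measurable.indicator ?_ hm
    unfold dotProduct
    fun_prop
  calc ∫⁻ s : ℝ, ∫⁻ x : Fin n → ℝ, (CK K).indicator
        (fun x => ENNReal.ofReal (Real.exp (-(x ⬝ᵥ ee n)))) (Fin.cons s x)
      ≤ ∫⁻ s : ℝ, (Ioi (0 : ℝ)).indicator
        (fun s => ENNReal.ofReal (Real.exp (-s) * s ^ n) * volume K) s := by
        refine lintegral_mono_ae ?_
        have hne : ∀ᵐ s : ℝ, s ≠ 0 := by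
          rw [ae_iff]
          simp
        filter_upwards [hne] with s hs0
        have e : ∀ x : Fin n → ℝ, (CK K).indicator
            (fun x => ENNReal.ofReal (Real.exp (-(x ⬝ᵥ ee n)))) (Fin.cons s x) =
            {x | gauge K x ≤ s}.indicator (fun _ => ENNReal.ofReal (Real.exp (-s))) x := by
          intro x
          by_cases hx : gauge K x ≤ s
          · rw [indicator_of_mem (show (Fin.cons s x : Fin (n + 1) → ℝ) ∈ CK K from hx),
              indicator_of_mem (show x ∈ {x | gauge K x ≤ s} from hx), dot_ee]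
            rfl
          · rw [indicator_of_notMem (show (Fin.cons s x : Fin (n + 1) → ℝ) ∉ CK K from hx),
              indicator_of_notMem (show x ∉ {x | gauge K x ≤ s} from hx)]
        rw [lintegral_congr e, lintegral_indicator
          (isClosed_le (gauge_cont h) continuous_const).measurableSet,
          lintegral_const, Measure.restrict_apply_univ]
        rcases lt_or_gt_of_ne hs0 with hs | hs
        · have : {x | gauge K x ≤ s} = (∅ : Set (Fin n → ℝ)) := by
            ext x
            simp only [mem_ofPred_eq, mem_empty_iff_false, iff_false, not_le]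
            exact hs.trans_le (gauge_nonneg x)
          rw [this, measure_empty, mul_zero]
          exact bot_le
        · rw [indicator_of_mem (show s ∈ Ioi (0 : ℝ) from hs),
            ENNReal.ofReal_mul (Real.exp_pos _).le, mul_assoc]
          refine mul_le_mul_right ?_ _
          have hsub : {x | gauge K x ≤ s} ⊆ s • K := by
            intro x hx
            refine ⟨s⁻¹ • x, gauge_le_one h ?_, ?_⟩
            · rw [gauge_smul_of_nonneg (inv_pos.2 hs).le, smul_eq_mul, inv_mul_le_iff₀ hs, mul_one]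
              exact hx
            · show s • s⁻¹ • x = x
              rw [smul_smul, mul_inv_cancel₀ hs.ne', one_smul]
          refine (measure_mono hsub).trans (le_of_eq ?_)
          rw [Measure.addHaar_smul]
          simp only [Module.finrank_fintype_fun_eq_card, Fintype.card_fin]
          rw [abs_of_nonneg (by positivity)]
    _ = ENNReal.ofReal (n.factorial : ℝ) * volume K := by
        rw [lintegral_indicator measurableSet_Ioi, lintegral_mul_const, lintegral_gamma]
        exact (by fun_prop : Continuous fun t : ℝ =>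
          Real.exp (-t) * t ^ n).measurable.ennreal_ofReal

lemma lintegral_exp_Ici' (c : ℝ) : ∫⁻ t in Ici c, ENNReal.ofReal (Real.exp (-(((n : ℝ) + 1) * t))) =
    ENNReal.ofReal (((n : ℝ) + 1)⁻¹) * ENNReal.ofReal (Real.exp (-(((n : ℝ) + 1) * c))) := by
  have hn : (0 : ℝ) < (n : ℝ) + 1 := by positivity
  have h1 : ∫⁻ t in Ici c, ENNReal.ofReal (Real.exp (-(((n : ℝ) + 1) * t))) =
      ∫⁻ t in Ioi c, ENNReal.ofReal (Real.exp (-(((n : ℝ) + 1) * t))) := by
    rw [setLIntegral_congr Ioi_ae_eq_Ici]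
  have h2 : IntegrableOn (fun t : ℝ => Real.exp (-(((n : ℝ) + 1) * t))) (Ioi c) := by
    have := exp_neg_integrableOn_Ioi c hn
    simpa only [neg_mul] using this
  rw [h1, ← ofReal_integral_eq_lintegral_ofReal h2 (ae_of_all _ fun t => (Real.exp_pos _).le),
    ← ENNReal.ofReal_mul (inv_pos.2 hn).le]
  congr 1
  have h3 := integral_exp_mul_Ioi (a := -((n : ℝ) + 1)) (by linarith) c
  simp only [neg_mul] at h3
  rw [h3]
  field_simp

lemma hs_smul' (h : OBody K) {c : ℝ} (hc : 0 < c) (u : Fin n → ℝ) :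
    hs K (c • u) ≤ c * hs K u := by
  refine GAaux.hs_le h _ _ fun x hx => ?_
  rw [dotProduct_smul, smul_eq_mul]
  exact mul_le_mul_of_nonneg_left (GAaux.le_hs h hx u) hc.le

/-- the exponential integral of the dual cone -/
lemma phis_le (h : OBody K) :
    ∫⁻ y in dualC (CK K), ENNReal.ofReal (Real.exp (-((((n : ℝ) + 1) • ee n) ⬝ᵥ y))) ≤
    ENNReal.ofReal ((((n : ℝ) + 1) ^ (n + 1))⁻¹) *
      ∫⁻ y, ENNReal.ofReal (Real.exp (-(hs K y))) := by
  have hn : (0 : ℝ) < (n : ℝ) + 1 := by positivity
  have hcont := GAaux.hs_cont h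
  set D : Set (Fin (n + 1) → ℝ) := {y | hs K (-(Fin.tail y)) ≤ y 0} with hD
  have hDm : MeasurableSet D := (isClosed_le (hcont.comp tail_cont.neg)
    (continuous_apply 0)).measurableSet
  have hsub : dualC (CK K) ⊆ D := by
    intro y hy
    refine GAaux.hs_le h _ _ fun x hx => ?_
    have h1 : (Fin.cons 1 x : Fin (n + 1) → ℝ) ∈ CK K := by
      show gauge K x ≤ 1
      exact gauge_le_one_of_mem hx
    have h2 := hy _ h1
    have h3 : (Fin.cons 1 x : Fin (n + 1) → ℝ) ⬝ᵥ y = y 0 + x ⬝ᵥ Fin.tail y := by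
      unfold dotProduct
      rw [Fin.sum_univ_succ]
      simp [Fin.tail]
    rw [h3] at h2
    rw [dotProduct_neg]
    linarith
  refine (lintegral_mono_set hsub).trans ?_
  rw [← lintegral_indicator hDm, lintegral_split]
  swap
  · refine Measurable.indicator ?_ hDm
    unfold dotProduct
    fun_prop
  set f : ℝ → (Fin n → ℝ) → ℝ≥0∞ := fun s x => D.indicator
        (fun y => ENNReal.ofReal (Real.exp (-((((n : ℝ) + 1) • ee n) ⬝ᵥ y)))) (Fin.cons s x) with hf
  have hfm : Measurable (Function.uncurry f) := by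
    have hg : Measurable (D.indicator
        (fun y => ENNReal.ofReal (Real.exp (-((((n : ℝ) + 1) • ee n) ⬝ᵥ y))))) := by
      refine Measurable.indicator ?_ hDm
      unfold dotProduct
      fun_prop
    have hc : Measurable fun p : ℝ × (Fin n → ℝ) => (Fin.cons p.1 p.2 : Fin (n + 1) → ℝ) := by
      refine measurable_pi_iff.2 fun i => ?_
      refine Fin.cases ?_ (fun j => ?_) i
      · exact measurable_fst
      · exact (measurable_pi_apply j).comp measurable_snd
    exact hg.comp hc
  rw [lintegral_lintegral_swap hfm.aemeasurable]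
  have e1 : ∀ x : Fin n → ℝ, ∫⁻ s, f s x ≤ ENNReal.ofReal (((n : ℝ) + 1)⁻¹) *
      ENNReal.ofReal (Real.exp (-(hs K ((-((n : ℝ) + 1)) • x)))) := by
    intro x
    have e2 : ∀ s, f s x = (Ici (hs K (-x))).indicator
        (fun t => ENNReal.ofReal (Real.exp (-(((n : ℝ) + 1) * t)))) s := by
      intro s
      simp only [hf]
      by_cases hx : hs K (-x) ≤ s
      · rw [indicator_of_mem (show (Fin.cons s x : Fin (n + 1) → ℝ) ∈ D from hx),
          indicator_of_mem (show s ∈ Ici (hs K (-x)) from hx), smul_dotProduct, ee_dot]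
        rfl
      · rw [indicator_of_notMem (show (Fin.cons s x : Fin (n + 1) → ℝ) ∉ D from hx),
          indicator_of_notMem (show s ∉ Ici (hs K (-x)) from hx)]
    rw [lintegral_congr e2, lintegral_indicator measurableSet_Ici, lintegral_exp_Ici']
    refine mul_le_mul_right (ENNReal.ofReal_le_ofReal (Real.exp_le_exp.2 (neg_le_neg ?_))) _
    have h4 : (-((n : ℝ) + 1)) • x = ((n : ℝ) + 1) • (-x) := by
      rw [smul_neg, neg_smul]
    rw [h4]
    exact hs_smul' h hn _
  refine (lintegral_mono e1).trans (le_of_eq ?_)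
  have hgm : Measurable fun y : Fin n → ℝ => ENNReal.ofReal (Real.exp (-(hs K y))) :=
    (by fun_prop : Continuous fun y : Fin n → ℝ => Real.exp (-(hs K y))).measurable.ennreal_ofReal
  rw [lintegral_const_mul]
  swap
  · exact hgm.comp (measurable_const_smul _)
  have h5 := Measure.map_addHaar_smul (volume : Measure (Fin n → ℝ))
    (r := -((n : ℝ) + 1)) (neg_ne_zero.2 hn.ne')
  have h6 : ∫⁻ x : Fin n → ℝ, ENNReal.ofReal (Real.exp (-(hs K ((-((n : ℝ) + 1)) • x)))) =
      ∫⁻ y, ENNReal.ofReal (Real.exp (-(hs K y)))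
        ∂(Measure.map (fun x : Fin n → ℝ => (-((n : ℝ) + 1)) • x) volume) := by
    rw [lintegral_map hgm (measurable_const_smul _)]
  rw [h6]
  have h7 : (Measure.map (fun x : Fin n → ℝ => (-((n : ℝ) + 1)) • x) volume) =
      ENNReal.ofReal (((n : ℝ) + 1) ^ n)⁻¹ • volume := by
    refine h5.trans ?_
    simp only [Module.finrank_fintype_fun_eq_card, Fintype.card_fin]
    rw [abs_inv, abs_pow, abs_neg, abs_of_pos hn]
  rw [h7, lintegral_smul_measure, smul_eq_mul, ← mul_assoc, ← ENNReal.ofReal_mul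
    (inv_pos.2 hn).le]
  congr 2
  rw [pow_succ, mul_inv, mul_comm]

/-- the inequality for bodies with the origin in the interior -/
theorem body_int (hcone : S_CONE) (h : OBody K) :
    ENNReal.ofReal (((n : ℝ) + 1) ^ (n + 1) / n.factorial) ≤
      volume K * ∫⁻ y, ENNReal.ofReal (Real.exp (-(hs K y))) := by
  have hn : (0 : ℝ) < (n : ℝ) + 1 := by positivity
  have hf : (0 : ℝ) < n.factorial := by exact_mod_cast n.factorial_pos
  have h1 := hcone (n + 1) (CK K) (ee n) (((n : ℝ) + 1) • ee n) (cone_CK h) (ee_pos h) (zz_int h)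
    (by
      rw [dot_ee]
      simp [ee])
  have h2 := h1.trans (mul_le_mul' (phi_le h) (phis_le h))
  set I := ∫⁻ y, ENNReal.ofReal (Real.exp (-(hs K y))) with hI
  calc ENNReal.ofReal (((n : ℝ) + 1) ^ (n + 1) / n.factorial)
      = ENNReal.ofReal (((n : ℝ) + 1) ^ (n + 1) / n.factorial) * 1 := by rw [mul_one]
    _ ≤ ENNReal.ofReal (((n : ℝ) + 1) ^ (n + 1) / n.factorial) *
        (ENNReal.ofReal (n.factorial : ℝ) * volume K *
          (ENNReal.ofReal ((((n : ℝ) + 1) ^ (n + 1))⁻¹) * I)) := mul_le_mul_right h2 _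
    _ = (ENNReal.ofReal (((n : ℝ) + 1) ^ (n + 1) / n.factorial) *
        ENNReal.ofReal (n.factorial : ℝ) * ENNReal.ofReal ((((n : ℝ) + 1) ^ (n + 1))⁻¹)) *
          (volume K * I) := by ring
    _ = volume K * I := by
        rw [← ENNReal.ofReal_mul (by positivity), ← ENNReal.ofReal_mul (by positivity)]
        have : ((n : ℝ) + 1) ^ (n + 1) / n.factorial * n.factorial *
            (((n : ℝ) + 1) ^ (n + 1))⁻¹ = 1 := by
          field_simp
        rw [this, ENNReal.ofReal_one, one_mul]

/-- the inequality in any position -/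
theorem body (hcone : S_CONE) (hc : IsCompact K) (hv : Convex ℝ K) (hi : (interior K).Nonempty) :
    ENNReal.ofReal (((n : ℝ) + 1) ^ (n + 1) / n.factorial) ≤
      volume K * ∫⁻ y, ENNReal.ofReal (Real.exp (-(hs K y))) := by
  by_cases h0 : (0 : Fin n → ℝ) ∈ interior K
  · exact body_int hcone ⟨hc, hv, h0⟩
  · rw [exp_hs_top hc hv hi h0, ENNReal.mul_top]
    · exact le_top
    · exact (lt_of_lt_of_le (isOpen_interior.measure_pos volume hi)
        (measure_mono interior_subset)).ne'

end Pool.Agent.Helper26.MAH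

end
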