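import Pool.Agent.Helper26.MAH.Body

/-!
# Mahler's inequality: cone duality

The inequality (N1) for a cone and for its dual cone gives the cone form of Mahler's inequality.
-/

set_option autoImplicit false

noncomputable section

namespace Pool.Agent.Helper26.MAH

open Matrix MeasureTheory Filter Topology Set
open scoped Pointwise ENNReal
open Pool.Agent.Helper2.MAH (Cone OI cut_compact)

variable {d : ℕ} {C : Set (Fin d → ℝ)} {e z : Fin d → ℝ}

/-- the order interval `[0, z]` of the cone -/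
def OC (C : Set (Fin d → ℝ)) (z : Fin d → ℝ) : Set (Fin d → ℝ) := {x | x ∈ C ∧ z - x ∈ C}

/-- the exponential integral of the cone -/
def phi (C : Set (Fin d → ℝ)) (e : Fin d → ℝ) : ℝ≥0∞ :=
  ∫⁻ x in C, ENNReal.ofReal (Real.exp (-(x ⬝ᵥ e)))

/-- the inequality (N1) -/
def S_N1 : Prop := ∀ (d : ℕ) (C : Set (Fin d → ℝ)) (e z : Fin d → ℝ), Cone C →
  (∀ x ∈ C, x ≠ 0 → 0 < x ⬝ᵥ e) → z ∈ interior C →
  ENNReal.ofReal (Real.exp (d - z ⬝ᵥ e)) * volume (OC C z) ≤ phi C e ^ 2 * volume (OI C e)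

lemma cone_convex (hC : Cone C) : Convex ℝ C := by
  intro x hx y hy a b ha hb _
  exact hC.add _ (hC.smul a ha x hx) _ (hC.smul b hb y hy)

lemma dot_cont (y : Fin d → ℝ) : Continuous fun x : Fin d → ℝ => x ⬝ᵥ y := by
  unfold dotProduct
  fun_prop

/-- the bidual cone -/
lemma bidual (hC : Cone C) : dualC (dualC C) = C := by
  refine Subset.antisymm (fun x hx => ?_) fun x hx y hy => ?_
  · by_contra hxC
    obtain ⟨f, u, hf, hu⟩ := geometric_hahn_banach_closed_point (cone_convex hC) hC.closed hxC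
    have h0 : 0 < u := by
      have := hf 0 hC.zero
      rwa [map_zero] at this
    have hfn : ∀ a ∈ C, f a ≤ 0 := by
      intro a ha
      by_contra hpos
      push Not at hpos
      have h1 := hf ((u / f a) • a) (hC.smul _ (by positivity) a ha)
      rw [map_smul, smul_eq_mul, div_mul_cancel₀ _ hpos.ne'] at h1
      exact lt_irrefl _ h1
    set y : Fin d → ℝ := fun i => -f (Pi.single i 1) with hy
    have hfy : ∀ v : Fin d → ℝ, v ⬝ᵥ y = -f v := by
      intro v
      have hv : v = ∑ i, v i • (Pi.single i 1 : Fin d → ℝ) := by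
        ext j
        simp [Finset.sum_apply, Pi.single_apply]
      conv_rhs => rw [hv]
      rw [map_sum, ← Finset.sum_neg_distrib]
      unfold dotProduct
      refine Finset.sum_congr rfl fun i _ => ?_
      rw [map_smul, smul_eq_mul, hy]
      ring
    have hyd : y ∈ dualC C := by
      intro a ha
      rw [hfy]
      linarith [hfn a ha]
    have h2 := hx y hyd
    rw [dotProduct_comm, hfy] at h2
    linarith
  · rw [dotProduct_comm]
    exact hy x hx

lemma abs_dot_le (x y : Fin d → ℝ) : |x ⬝ᵥ y| ≤ d * (‖x‖ * ‖y‖) := by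
  unfold dotProduct
  calc |∑ i, x i * y i| ≤ ∑ i, |x i * y i| := Finset.abs_sum_le_sum_abs _ _
    _ ≤ ∑ _i : Fin d, ‖x‖ * ‖y‖ := by
        refine Finset.sum_le_sum fun i _ => ?_
        rw [abs_mul]
        exact mul_le_mul (norm_le_pi_norm x i) (norm_le_pi_norm y i) (abs_nonneg _) (norm_nonneg _)
    _ = d * (‖x‖ * ‖y‖) := by
        rw [Finset.sum_const, Finset.card_univ, Fintype.card_fin, nsmul_eq_mul]

/-- positivity is uniform -/
lemma exists_delta (hC : Cone C) (he : ∀ x ∈ C, x ≠ 0 → 0 < x ⬝ᵥ e) :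
    ∃ δ : ℝ, 0 < δ ∧ ∀ x ∈ C, δ * ‖x‖ ≤ x ⬝ᵥ e := by
  have hS : IsCompact (C ∩ Metric.sphere (0 : Fin d → ℝ) 1) :=
    (isCompact_sphere _ _).inter_left hC.closed
  have hnorm : ∀ x ∈ C, x ≠ 0 → (‖x‖)⁻¹ • x ∈ C ∩ Metric.sphere (0 : Fin d → ℝ) 1 := by
    intro x hx hx0
    refine ⟨hC.smul _ (by positivity) x hx, ?_⟩
    rw [mem_sphere_zero_iff_norm, norm_smul, norm_inv, norm_norm,
      inv_mul_cancel₀ (norm_ne_zero_iff.2 hx0)]
  rcases (C ∩ Metric.sphere (0 : Fin d → ℝ) 1).eq_empty_or_nonempty with h | h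
  · refine ⟨1, one_pos, fun x hx => ?_⟩
    by_cases hx0 : x = 0
    · simp [hx0]
    · exact absurd (hnorm x hx hx0) (by rw [h]; exact notMem_empty _)
  · obtain ⟨w, hw, hmin⟩ := hS.exists_isMinOn h (dot_cont e).continuousOn
    have hw0 : w ≠ 0 := by
      intro h0
      have := hw.2
      rw [mem_sphere_zero_iff_norm, h0, norm_zero] at this
      exact zero_ne_one this
    refine ⟨w ⬝ᵥ e, he w hw.1 hw0, fun x hx => ?_⟩
    by_cases hx0 : x = 0
    · simp [hx0]
    · have hxn : 0 < ‖x‖ := norm_pos_iff.2 hx0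
      have h2 : w ⬝ᵥ e ≤ ((‖x‖)⁻¹ • x) ⬝ᵥ e := hmin (hnorm x hx hx0)
      rw [smul_dotProduct, smul_eq_mul, le_inv_mul_iff₀ hxn] at h2
      linarith

/-- `e` is interior to the dual cone -/
lemma e_int (hC : Cone C) (he : ∀ x ∈ C, x ≠ 0 → 0 < x ⬝ᵥ e) : e ∈ interior (dualC C) := by
  obtain ⟨δ, hδ, hd⟩ := exists_delta hC he
  rw [mem_interior_iff_mem_nhds]
  refine Filter.mem_of_superset (Metric.ball_mem_nhds e
    (show (0 : ℝ) < δ / (d + 1) by positivity)) fun y hy x hx => ?_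
  rw [Metric.mem_ball, dist_eq_norm, lt_div_iff₀ (by positivity)] at hy
  have h1 : x ⬝ᵥ y = x ⬝ᵥ e + x ⬝ᵥ (y - e) := by rw [dotProduct_sub]; ring
  have h2 := neg_le_of_abs_le (abs_dot_le x (y - e))
  have h3 := hd x hx
  have h4 : (d : ℝ) * ‖y - e‖ ≤ δ := by nlinarith [norm_nonneg (y - e)]
  have h5 := mul_le_mul_of_nonneg_left h4 (norm_nonneg x)
  rw [h1]
  linarith

/-- the dual cone is a cone -/
lemma cone_dual (hC : Cone C) (he : ∀ x ∈ C, x ≠ 0 → 0 < x ⬝ᵥ e) : Cone (dualC C) where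
  closed := by
    have : dualC C = ⋂ x ∈ C, {y : Fin d → ℝ | 0 ≤ x ⬝ᵥ y} := by
      ext y
      simp only [dualC, mem_ofPred_eq, mem_iInter]
    rw [this]
    refine isClosed_biInter fun x _ => isClosed_le continuous_const ?_
    exact (dot_cont x).congr fun y => dotProduct_comm y x
  zero := fun x _ => by rw [dotProduct_zero]
  add := fun x hx y hy v hv => by
    rw [dotProduct_add]
    exact add_nonneg (hx v hv) (hy v hv)
  smul := fun c hc x hx v hv => by
    rw [dotProduct_smul, smul_eq_mul]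
    exact mul_nonneg hc (hx v hv)
  int := ⟨e, e_int hC he⟩

/-- interior points of the cone are positive on the dual cone -/
lemma z_pos (hz : z ∈ interior C) : ∀ y ∈ dualC C, y ≠ 0 → 0 < y ⬝ᵥ z := by
  intro y hy hy0
  have hc : Tendsto (fun s : ℝ => z - s • y) (𝓝 0) (𝓝 z) := by
    have : Continuous fun s : ℝ => z - s • y := by fun_prop
    have h2 := this.tendsto 0
    simpa using h2
  have h1 : ∀ᶠ s in 𝓝[>] (0 : ℝ), z - s • y ∈ C :=
    (hc.eventually (mem_interior_iff_mem_nhds.1 hz)).filter_mono nhdsWithin_le_nhds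
  obtain ⟨s, hs, hs0⟩ := (h1.and self_mem_nhdsWithin).exists
  have hs0' : 0 < s := hs0
  have h2 := hy _ hs
  rw [sub_dotProduct, smul_dotProduct, smul_eq_mul] at h2
  have h3 : 0 < y ⬝ᵥ y := by
    have := dotProduct_self_star_pos_iff (v := y)
    rcases (dotProduct_self_nonneg' y).lt_or_eq with h | h
    · exact h
    · exact absurd (dotProduct_self_eq_zero.1 h.symm) hy0
  rw [dotProduct_comm y z]
  nlinarith
where
  dotProduct_self_nonneg' (y : Fin d → ℝ) : 0 ≤ y ⬝ᵥ y := by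
    unfold dotProduct
    exact Finset.sum_nonneg fun i _ => mul_self_nonneg _

lemma OC_dual : OC (dualC C) e = OI C e := by
  ext y
  constructor
  · rintro ⟨h1, h2⟩ x hx
    refine ⟨h1 x hx, ?_⟩
    have := h2 x hx
    rw [dotProduct_sub] at this
    linarith
  · intro h
    refine ⟨fun x hx => (h x hx).1, fun x hx => ?_⟩
    rw [dotProduct_sub]
    linarith [(h x hx).2]

lemma OI_dual (hC : Cone C) : OI (dualC C) z = OC C z := by
  rw [← OC_dual, bidual hC]

lemma OC_pos (hC : Cone C) (hz : z ∈ interior C) : 0 < volume (OC C z) := by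
  have h1 : (1 / 2 : ℝ) • z ∈ interior C := by
    have h2 : C ∈ 𝓝 z := mem_interior_iff_mem_nhds.1 hz
    rw [mem_interior_iff_mem_nhds]
    have h3 : Tendsto (fun x : Fin d → ℝ => (2 : ℝ) • x) (𝓝 ((1 / 2 : ℝ) • z)) (𝓝 z) := by
      have : Continuous fun x : Fin d → ℝ => (2 : ℝ) • x := by fun_prop
      have h4 := this.tendsto ((1 / 2 : ℝ) • z)
      rwa [smul_smul, show (2 : ℝ) * (1 / 2) = 1 by norm_num, one_smul] at h4
    filter_upwards [h3.eventually h2] with x hx
    have h5 := hC.smul (1 / 2) (by norm_num) _ hx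
    rwa [smul_smul, show (1 / 2 : ℝ) * 2 = 1 by norm_num, one_smul] at h5
  obtain ⟨r, hr, hrC⟩ := Metric.mem_nhds_iff.1 (mem_interior_iff_mem_nhds.1 h1)
  refine lt_of_lt_of_le (Metric.measure_ball_pos volume ((1 / 2 : ℝ) • z) hr)
    (measure_mono fun x hx => ⟨hrC hx, hrC ?_⟩)
  rw [Metric.mem_ball, dist_eq_norm] at hx ⊢
  have : z - x - (1 / 2 : ℝ) • z = -(x - (1 / 2 : ℝ) • z) := by
    ext i
    simp
    ring
  rwa [this, norm_neg]

lemma OC_lt_top (hC : Cone C) (he : ∀ x ∈ C, x ≠ 0 → 0 < x ⬝ᵥ e) : volume (OC C z) < ⊤ := by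
  refine lt_of_le_of_lt (measure_mono fun x hx => ?_)
    (cut_compact hC he (z ⬝ᵥ e)).measure_lt_top
  refine ⟨hx.1, ?_⟩
  have h1 := Pool.Agent.Helper2.MAH.e_nonneg he hx.2
  rw [sub_dotProduct] at h1
  linarith

/-- **(N1) for the cone and its dual gives the cone form** -/
theorem cone_of_N1 (hN : S_N1) : S_CONE := by
  intro d C e z hC he hz hze
  have hD := cone_dual hC he
  have hzp := z_pos hz
  have h1 := hN d C e z hC he hz
  have h2 := hN d (dualC C) z e hD hzp (e_int hC he)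
  rw [OC_dual, OI_dual hC] at h2
  have e1 : (d : ℝ) - z ⬝ᵥ e = 0 := by rw [hze, sub_self]
  have e2 : (d : ℝ) - e ⬝ᵥ z = 0 := by rw [dotProduct_comm, hze, sub_self]
  rw [e1, Real.exp_zero, ENNReal.ofReal_one, one_mul] at h1
  rw [e2, Real.exp_zero, ENNReal.ofReal_one, one_mul] at h2
  have hV0 := OC_pos hC hz
  have hVt := OC_lt_top (z := z) hC he
  have hW0 : 0 < volume (OI C e) := by
    rw [← OC_dual]
    exact OC_pos hD (e_int hC he)
  have hWt : volume (OI C e) < ⊤ := by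
    rw [← OC_dual]
    exact OC_lt_top hD hzp
  have h3 := mul_le_mul' h1 h2
  have h4 : 1 * (volume (OC C z) * volume (OI C e)) ≤
      (phi C e * phi (dualC C) z) ^ 2 * (volume (OC C z) * volume (OI C e)) := by
    rw [one_mul]
    refine h3.trans (le_of_eq ?_)
    ring
  have hVW0 : volume (OC C z) * volume (OI C e) ≠ 0 := mul_ne_zero hV0.ne' hW0.ne'
  have hVWt : volume (OC C z) * volume (OI C e) ≠ ⊤ := ENNReal.mul_ne_top hVt.ne hWt.ne
  have h5 : 1 ≤ (phi C e * phi (dualC C) z) ^ 2 := by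
    by_contra hlt
    push Not at hlt
    have := ENNReal.mul_lt_mul_left hVW0 hVWt hlt
    exact absurd h4 (not_le.2 this)
  have h6 : 1 ≤ phi C e * phi (dualC C) z := by
    by_contra hlt
    push Not at hlt
    have h7 : (phi C e * phi (dualC C) z) ^ 2 ≤ phi C e * phi (dualC C) z := by
      rw [sq]
      calc _ ≤ (phi C e * phi (dualC C) z) * 1 := mul_le_mul_right hlt.le _
        _ = _ := mul_one _
    exact absurd (h5.trans h7) (not_le.2 hlt)
  have e3 : phi (dualC C) z = ∫⁻ y in dualC C, ENNReal.ofReal (Real.exp (-(z ⬝ᵥ y))) := by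
    unfold phi
    simp only [dotProduct_comm z]
  rw [e3] at h6
  exact h6

end Pool.Agent.Helper26.MAH

end
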